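import Pool.Agent.Q196.MB.Supp

/-!
# Isomorphisms of support expansion algebras are spatially implemented

Let `(X, μ)` and `(Y, ν)` be finitely decomposable measure spaces, and let `C*_u(X, 𝒱_μ)` be the
norm closure of the operators on `L²(X, μ)` with bounded support expansion. Every `*`-isomorphism
between `C*_u(X, 𝒱_μ)` and `C*_u(Y, 𝒱_ν)` is implemented by a unitary
`L²(X, μ) → L²(Y, ν)`: the answer to the question is yes.

Sketch of the proof. Every set of positive finite measure contains a set `B` of positive measure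
which is an atom or is homogeneous; in the second case Maharam's recursion gives a group of
`±1`-valued functions, indexed by an infinite sum of copies of `ZMod 2`, which is an orthogonal
basis of `L²(B)`. Additive automorphisms of the index group give unitaries of `L²(B)` which preserve
the measure of supports, and three suitable involutions have a spectral gap on the complement of the
constants. So the projection on `1_B` is a norm limit of powers of the mean of the three unitaries,
and it lies in the algebra. The vectors whose rank one projection lies in the algebra are then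
total, isomorphisms preserve the rank one projections, and this gives the unitary.
-/

set_option autoImplicit false

namespace Pool.Agent.Results.MP_612f91_an.SpatialImplementation

open MeasureTheory Set
open scoped ENNReal NNReal

universe u v

section hilbert

variable {H : Type u} {K : Type v} [NormedAddCommGroup H] [InnerProductSpace ℂ H]
  [NormedAddCommGroup K] [InnerProductSpace ℂ K]

/-- The bounded operators on the Hilbert space `H`. -/
abbrev BH (H : Type u) [NormedAddCommGroup H] [InnerProductSpace ℂ H] : Type u := H →L[ℂ] H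

/-- The sum of two operators. -/
noncomputable def opAdd (a b : BH H) : BH H := a + b

/-- The scalar multiples of an operator. -/
noncomputable def opSmul (c : ℂ) (a : BH H) : BH H := c • a

/-- The product of two operators. -/
noncomputable def opMul (a b : BH H) : BH H := a * b

/-- The adjoint of an operator. -/
noncomputable def opStar [CompleteSpace H] (a : BH H) : BH H := star a

/-- The norm closure of a set of bounded operators on a Hilbert space. -/
def normClosure (S : Set (BH H)) : Set (BH H) := closure S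

/-- `Φ` restricts to a `*`-isomorphism of the `*`-algebra `A` of bounded operators onto the
`*`-algebra `B`. -/
structure IsStarIso [CompleteSpace H] [CompleteSpace K] (A : Set (BH H)) (B : Set (BH K))
    (Φ : BH H → BH K) : Prop where
  bij : BijOn Φ A B
  add : ∀ a ∈ A, ∀ b ∈ A, Φ (opAdd a b) = opAdd (Φ a) (Φ b)
  smul : ∀ c : ℂ, ∀ a ∈ A, Φ (opSmul c a) = opSmul c (Φ a)
  mul : ∀ a ∈ A, ∀ b ∈ A, Φ (opMul a b) = opMul (Φ a) (Φ b)
  star : ∀ a ∈ A, Φ (opStar a) = opStar (Φ a)

/-- There is a unitary `u : H → K` with `Φ(a) = u a u*` for all `a` in `A`. -/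
def SpatiallyImplemented (A : Set (BH H)) (Φ : BH H → BH K) : Prop :=
  ∃ u : H ≃ₗᵢ[ℂ] K, ∀ a ∈ A, ∀ v : K, Φ a v = u (a (u.symm v))

end hilbert

section definitions

variable {X : Type u} [MeasurableSpace X]

/-- The Hilbert space `L²(X, μ)` of complex valued functions (Mathlib's `Lp ℂ 2 μ`). -/
def Ltwo (μ : Measure X) : Type u := Lp ℂ 2 μ

noncomputable instance instGroup (μ : Measure X) : NormedAddCommGroup (Ltwo μ) :=
  @Lp.instNormedAddCommGroup X ℂ _ 2 μ _ _

noncomputable instance instInner (μ : Measure X) : InnerProductSpace ℂ (Ltwo μ) :=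
  @MeasureTheory.L2.innerProductSpace X ℂ ℂ _ _ μ _ _

instance instComplete (μ : Measure X) : CompleteSpace (Ltwo μ) :=
  (inferInstance : CompleteSpace (Lp ℂ 2 μ))

/-- The function `X → ℂ` that represents the element `f` of `L²(X, μ)`. -/
noncomputable def fn {μ : Measure X} (f : Ltwo μ) : X → ℂ := ((show Lp ℂ 2 μ from f) : X → ℂ)

/-- The measure space `(X, μ)` is finitely decomposable: it has a partition `P` into measurable sets
of finite measure such that a set `A` is measurable if and only if all `A ∩ s`, `s ∈ P`, are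
measurable, and then `μ(A)` is the sum of the numbers `μ(A ∩ s)`. -/
def FinitelyDecomposable (μ : Measure X) : Prop :=
  ∃ P : Set (Set X), P.PairwiseDisjoint id ∧ ⋃₀ P = univ ∧
    (∀ s ∈ P, MeasurableSet s ∧ μ s < ∞) ∧
    (∀ A, MeasurableSet A ↔ ∀ s ∈ P, MeasurableSet (A ∩ s)) ∧
    ∀ A, MeasurableSet A → μ A = ∑' s : P, μ (A ∩ s)

/-- `q` is the projection `χ_A` of `L_∞(X, μ)`: the multiplication by the indicator function of the
measurable set `A` on `L²(X, μ)`. -/
def IsChi (μ : Measure X) (A : Set X) (q : BH (Ltwo μ)) : Prop :=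
  MeasurableSet A ∧ ∀ f : Ltwo μ, fn (q f) =ᵐ[μ] A.indicator (fn f)

/-- The left support `s(b)`, the smallest projection `p` of `L_∞(X, μ)` with `p b = b`, is `χ_S`. -/
def IsLeftSupport (μ : Measure X) (b : BH (Ltwo μ)) (S : Set X) : Prop :=
  (∃ p, IsChi μ S p ∧ opMul p b = b) ∧ ∀ T p, IsChi μ T p → opMul p b = b → μ (S \ T) = 0

/-- The operator `a` has bounded support expansion: there is `l ≥ 0` such that
`τ(s(a q)) ≤ l τ(q)` and `τ(s(a* q)) ≤ l τ(q)` for all projections `q = χ_Q` of `L_∞(X, μ)`. -/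
def BoundedSupportExpansion (μ : Measure X) (a : BH (Ltwo μ)) : Prop :=
  ∃ l : ℝ≥0, ∀ Q q, IsChi μ Q q → ∀ S,
    (IsLeftSupport μ (opMul a q) S → μ S ≤ l * μ Q) ∧
    (IsLeftSupport μ (opMul (opStar a) q) S → μ S ≤ l * μ Q)

/-- The C*-algebra `C*_u(X, 𝒱_μ)`: the norm closure of the operators with bounded support
expansion. -/
def CStarU (μ : Measure X) : Set (BH (Ltwo μ)) := normClosure {a | BoundedSupportExpansion μ a}

end definitions

section proof

variable {X : Type u} [MeasurableSpace X] {μ : Measure X}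

theorem isChi_iff {A : Set X} {q : Lp ℂ 2 μ →L[ℂ] Lp ℂ 2 μ} :
    IsChi μ A q ↔ MeasurableSet A ∧ q = Q196.MB.chi μ A := by
  constructor
  · rintro ⟨hA, h⟩
    refine ⟨hA, ?_⟩
    ext1 f
    apply Lp.ext
    have h1 : ((q f : Lp ℂ 2 μ) : X → ℂ) =ᵐ[μ] A.indicator f := h f
    filter_upwards [h1, Q196.MB.coeFn_chi hA f] with x h1 h2
    rw [h1, h2]
    by_cases hx : x ∈ A <;> simp [hx]
  · rintro ⟨hA, rfl⟩
    refine ⟨hA, ?_⟩
    intro (f : Lp ℂ 2 μ)
    change ((Q196.MB.chi μ A f : Lp ℂ 2 μ) : X → ℂ) =ᵐ[μ] A.indicator (f : X → ℂ)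
    filter_upwards [Q196.MB.coeFn_chi hA f] with x h2
    rw [h2]
    by_cases hx : x ∈ A <;> simp [hx]

theorem isLeftSupport_iff {b : Lp ℂ 2 μ →L[ℂ] Lp ℂ 2 μ} {S : Set X} :
    IsLeftSupport μ b S ↔ MeasurableSet S ∧ Q196.MB.chi μ S * b = b ∧
      ∀ T, MeasurableSet T → Q196.MB.chi μ T * b = b → μ (S \ T) = 0 := by
  constructor
  · rintro ⟨⟨p, hp, hpb⟩, h⟩
    have hp' := isChi_iff.1 hp
    refine ⟨hp'.1, ?_, fun T hT hTb => h T _ (isChi_iff.2 ⟨hT, rfl⟩) hTb⟩
    rw [← hp'.2]
    exact hpb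
  · rintro ⟨hS, h1, h2⟩
    refine ⟨⟨_, isChi_iff.2 ⟨hS, rfl⟩, h1⟩, fun T p hp hpb => ?_⟩
    have hp' := isChi_iff.1 hp
    exact h2 T hp'.1 (by rw [← hp'.2]; exact hpb)

theorem bse_iff (hμ : FinitelyDecomposable μ) (a : Lp ℂ 2 μ →L[ℂ] Lp ℂ 2 μ) :
    BoundedSupportExpansion μ a ↔ a ∈ Q196.MB.bse μ := by
  obtain ⟨P, hdisj, hun, hfin, hmeas, hsum⟩ := hμ
  have hsup := fun b : Lp ℂ 2 μ →L[ℂ] Lp ℂ 2 μ =>
    Q196.MB.exists_support hun hfin hdisj hmeas hsum b
  constructor
  · rintro ⟨l, hl⟩
    have key : ∀ c : Lp ℂ 2 μ →L[ℂ] Lp ℂ 2 μ,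
        (∀ Q q, IsChi μ Q q → ∀ S, IsLeftSupport μ (opMul c q) S → μ S ≤ l * μ Q) →
        Q196.MB.Expands μ l c := by
      intro c hc Q hQ
      obtain ⟨S, h1, h2, h3⟩ := hsup (c * Q196.MB.chi μ Q)
      exact ⟨S, ⟨h1, h2⟩, hc Q _ (isChi_iff.2 ⟨hQ, rfl⟩) S (isLeftSupport_iff.2 ⟨h1, h2, h3⟩)⟩
    exact ⟨l, key a fun Q q hq S => (hl Q q hq S).1,
      key (star a) fun Q q hq S => (hl Q q hq S).2⟩
  · rintro ⟨l, h1, h2⟩
    have key : ∀ c : Lp ℂ 2 μ →L[ℂ] Lp ℂ 2 μ, Q196.MB.Expands μ l c →
        ∀ Q q, IsChi μ Q q → ∀ S, IsLeftSupport μ (opMul c q) S → μ S ≤ l * μ Q := by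
      intro c hc Q q hq S hS
      have hq' := isChi_iff.1 hq
      obtain ⟨T, hT1, hT2⟩ := hc Q hq'.1
      rw [← hq'.2] at hT1
      have h3 := (isLeftSupport_iff.1 hS).2.2 T hT1.1 hT1.2
      calc μ S ≤ μ (T ∪ (S \ T)) := measure_mono (by
            rw [union_diff_self]
            exact subset_union_right)
        _ ≤ μ T + μ (S \ T) := measure_union_le _ _
        _ = μ T := by rw [h3, add_zero]
        _ ≤ l * μ Q := hT2
    exact ⟨l, fun Q q hq S => ⟨key a h1 Q q hq S, key (star a) h2 Q q hq S⟩⟩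

/-- The algebra, as a star subalgebra. -/
noncomputable def CuL (μ : Measure X) : StarSubalgebra ℂ (BH (Ltwo μ)) := Q196.MB.Cu μ

theorem rich_CuL : Q196.MB.RankOneRich (CuL μ) := Q196.MB.rich_Cu (μ := μ)

/-- On a finitely decomposable measure space the operators with bounded support expansion form a
unital `*`-algebra, and `CStarU μ` is its norm closure. -/
theorem cStarU_eq (hμ : FinitelyDecomposable μ) : CStarU μ = (CuL μ : Set (BH (Ltwo μ))) := by
  have h : {a | BoundedSupportExpansion μ a}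
      = (Q196.MB.bse μ : Set (Lp ℂ 2 μ →L[ℂ] Lp ℂ 2 μ)) := by
    ext a
    exact bse_iff hμ a
  have h2 : ((Q196.MB.Cu μ : StarSubalgebra ℂ (Lp ℂ 2 μ →L[ℂ] Lp ℂ 2 μ)) :
      Set (Lp ℂ 2 μ →L[ℂ] Lp ℂ 2 μ)) = closure (Q196.MB.bse μ) :=
    StarSubalgebra.topologicalClosure_coe _
  have h3 : CStarU μ = closure ({a | BoundedSupportExpansion μ a} :
      Set (Lp ℂ 2 μ →L[ℂ] Lp ℂ 2 μ)) := rfl
  exact h3.trans ((congrArg closure h).trans h2.symm)

theorem spatial_generic {H : Type u} {K : Type v} [NormedAddCommGroup H] [InnerProductSpace ℂ H]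
    [NormedAddCommGroup K] [InnerProductSpace ℂ K] [CompleteSpace H] [CompleteSpace K]
    (A : StarSubalgebra ℂ (BH H)) (B : StarSubalgebra ℂ (BH K)) (hA : Q196.MB.RankOneRich A)
    (hB : Q196.MB.RankOneRich B) (Φ : BH H → BH K)
    (hΦ : IsStarIso (A : Set (BH H)) (B : Set (BH K)) Φ) :
    SpatiallyImplemented (A : Set (BH H)) Φ := by
  let e : A ≃ B := Set.BijOn.equiv Φ hΦ.bij
  have he : ∀ a : A, ((e a : B) : BH K) = Φ a := fun a => rfl
  let Ψ : A ≃⋆ₐ[ℂ] B :=
    { e with
      map_mul' := fun a b => Subtype.ext (hΦ.mul a a.2 b b.2)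
      map_add' := fun a b => Subtype.ext (hΦ.add a a.2 b b.2)
      map_star' := fun a => Subtype.ext (hΦ.star a a.2)
      map_smul' := fun c a => Subtype.ext (hΦ.smul c a a.2) }
  have hΨ : ∀ a : A, ((Ψ a : B) : BH K) = Φ a := fun a => rfl
  obtain ⟨u, hu⟩ := Q196.MB.spatial_of_rich hA hB Ψ
  refine ⟨u, fun a ha v => ?_⟩
  have := hu ⟨a, ha⟩ (u.symm v)
  rw [LinearIsometryEquiv.apply_symm_apply, hΨ] at this
  exact this

end proof

/-- **Every `*`-isomorphism between the support expansion algebras of finitely decomposable measure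
spaces is spatially implemented.** -/
theorem result {X : Type u} {Y : Type v} [MeasurableSpace X] [MeasurableSpace Y]
    (μ : Measure X) (ν : Measure Y) (hμ : FinitelyDecomposable μ) (hν : FinitelyDecomposable ν)
    (Φ : BH (Ltwo μ) → BH (Ltwo ν)) (hΦ : IsStarIso (CStarU μ) (CStarU ν) Φ) :
    SpatiallyImplemented (CStarU μ) Φ := by
  rw [cStarU_eq hμ, cStarU_eq hν] at hΦ
  rw [cStarU_eq hμ]
  exact spatial_generic (CuL μ) (CuL ν) rich_CuL rich_CuL Φ hΦ

end Pool.Agent.Results.MP_612f91_an.SpatialImplementation
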